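import Pool.Agent.L5helper77.Inj3

/-!
`𝓛` is a Banach algebra under pointwise multiplication.
-/

set_option autoImplicit false

namespace Pool.Agent.Results.MP_20ef18_an.BanachAlgebra

open Pool.Agent.Results.MP_20ef18_an.OpAlg
open Pool.Agent.L5helper77.Inj

/-- `𝓛` (`spaceL` with the norm `normL`) is a Banach algebra: it is closed under products, with
`‖φ ψ‖ ≤ exp (2 (1 - γ)) ‖φ‖ ‖ψ‖`, `γ` the Euler–Mascheroni constant; it contains `1`, it is a linear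
space, `normL` is a norm on it, and every Cauchy sequence converges. -/
theorem result :
    (∀ φ ψ : PowerSeries ℂ, φ ∈ spaceL → ψ ∈ spaceL → φ * ψ ∈ spaceL ∧
      normL (φ * ψ) ≤ Real.exp (2 * (1 - Real.eulerMascheroniConstant)) * normL φ * normL ψ) ∧
    (1 : PowerSeries ℂ) ∈ spaceL ∧
    (∀ φ ψ : PowerSeries ℂ, φ ∈ spaceL → ψ ∈ spaceL →
      φ + ψ ∈ spaceL ∧ normL (φ + ψ) ≤ normL φ + normL ψ) ∧
    (∀ (c : ℂ) (φ : PowerSeries ℂ), φ ∈ spaceL → c • φ ∈ spaceL ∧ normL (c • φ) = ‖c‖ * normL φ) ∧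
    (∀ φ : PowerSeries ℂ, φ ∈ spaceL → 0 ≤ normL φ ∧ (normL φ = 0 → φ = 0)) ∧
    (∀ f : ℕ → PowerSeries ℂ, (∀ n, f n ∈ spaceL) →
      (∀ ε > 0, ∃ N, ∀ m ≥ N, ∀ n ≥ N, normL (f m - f n) < ε) →
      ∃ g ∈ spaceL, Filter.Tendsto (fun n => normL (f n - g)) Filter.atTop (nhds 0)) := by
  have hK : K ^ 2 = Real.exp (2 * (1 - Real.eulerMascheroniConstant)) := by
    rw [K, ← Real.exp_nat_mul]
    norm_num
  rw [← hK]
  exact ⟨fun φ ψ h1 h2 => ⟨mul_mem h1 h2, normL_mul_le h1 h2⟩, one_mem,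
    fun φ ψ h1 h2 => ⟨add_mem h1 h2, normL_add_le h1 h2⟩,
    fun c φ h => ⟨smul_mem c h, normL_smul c h⟩,
    fun φ h => ⟨normL_nonneg φ, eq_zero_of_normL h⟩,
    fun f h1 h2 => complete h1 h2⟩

end Pool.Agent.Results.MP_20ef18_an.BanachAlgebra
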